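import Mathlib

set_option autoImplicit false

namespace Pool.Agent.Results.MP_2093e0_al.SemiPotentWUU

universe u

/-- An element `a` of a ring is strongly nil-clean: `a = e + b` with `e` idempotent,
`b` nilpotent and `e b = b e`. -/
def IsStronglyNilClean {R : Type u} [Ring R] (a : R) : Prop :=
  ∃ e b : R, IsIdempotentElem e ∧ IsNilpotent b ∧ e * b = b * e ∧ a = e + b

/-- A ring is strongly weakly nil-clean: for every `a`, at least one of `a`, `-a` is
strongly nil-clean. -/
def IsStronglyWeaklyNilCleanRing (R : Type u) [Ring R] : Prop :=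
  ∀ a : R, IsStronglyNilClean a ∨ IsStronglyNilClean (-a)

/-- A ring is weakly UU: `U(R) = Nil(R) ± 1`. -/
def IsWeaklyUURing (R : Type u) [Ring R] : Prop :=
  {v : R | IsUnit v} = {v : R | ∃ n : R, IsNilpotent n ∧ (v = n + 1 ∨ v = n - 1)}

/-- A ring is semi-potent: every right ideal not contained in the Jacobson radical contains a
nonzero idempotent. -/
def IsSemiPotentRing (R : Type u) [Ring R] : Prop :=
  ∀ I : Submodule Rᵐᵒᵖ R, (∃ x ∈ I, x ∉ Ring.jacobson R) →
    ∃ e ∈ I, e ≠ 0 ∧ IsIdempotentElem e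

section General

variable {R : Type u} [Ring R]

theorem isUnit_one_add_of_mem_jacobson {x : R} (hx : x ∈ Ring.jacobson R) : IsUnit (1 + x) := by
  have key : ∀ t : R, t ∈ Ring.jacobson R → ∃ z, z * (1 + t) = 1 := by
    intro t ht
    rw [← Ideal.jacobson_bot, Ideal.mem_jacobson_iff] at ht
    obtain ⟨z, hz⟩ := ht 1
    rw [Submodule.mem_bot] at hz
    refine ⟨z, ?_⟩
    have : z * (1 + t) = z * 1 * t + z - 1 + 1 := by noncomm_ring
    rw [this, hz, zero_add]
  obtain ⟨z, hz⟩ := key x hx
  have hzx : -(z * x) ∈ Ring.jacobson R := neg_mem (Ideal.mul_mem_left _ _ hx)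
  obtain ⟨w, hw⟩ := key _ hzx
  have hz' : 1 + -(z * x) = z := by
    have : z * (1 + x) = z + z * x := by noncomm_ring
    rw [this] at hz
    rw [← hz]
    have h5 : z + z * x + -(z * x) = z := by abel
    exact h5
  rw [hz'] at hw
  have hwx : w = 1 + x := by
    calc w = w * (z * (1 + x)) := by rw [hz, mul_one]
      _ = (w * z) * (1 + x) := by rw [mul_assoc]
      _ = 1 + x := by rw [hw, one_mul]
  refine ⟨⟨1 + x, z, ?_, hz⟩, rfl⟩
  rw [← hwx]; exact hw

theorem mem_jacobson_of_forall_isNilpotent {x : R} (h : ∀ r, IsNilpotent (x * r)) :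
    x ∈ Ring.jacobson R := by
  rw [← Ideal.jacobson_bot, Ideal.mem_jacobson_iff]
  intro y
  have hyx : IsNilpotent (y * x) := by
    obtain ⟨n, hn⟩ := h y
    refine ⟨n + 1, ?_⟩
    have : ∀ m : ℕ, (y * x) ^ (m + 1) = y * (x * y) ^ m * x := by
      intro m
      induction m with
      | zero => simp
      | succ m ih => rw [pow_succ, ih, pow_succ]; noncomm_ring
    rw [this, hn]; simp
  have hu : IsUnit (1 + y * x) := hyx.isUnit_one_add
  obtain ⟨v, hv⟩ := hu
  refine ⟨(↑v⁻¹ : R), ?_⟩
  rw [Submodule.mem_bot]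
  have : (↑v⁻¹ : R) * y * x + ↑v⁻¹ - 1 = ↑v⁻¹ * (1 + y * x) - 1 := by noncomm_ring
  rw [this, ← hv]; simp

/-- If `a - a^2` is nilpotent, then `a R` contains an idempotent `E` which vanishes only if `a`
is nilpotent, and `a - E` is nilpotent, commuting with `E`. -/
theorem exists_idem {a : R} (h : IsNilpotent (a - a ^ 2)) :
    ∃ E r : R, IsIdempotentElem E ∧ E = a * r ∧ IsNilpotent (a - E) ∧ E * (a - E) = (a - E) * E := by
  obtain ⟨n, hn⟩ := h
  have hn1 : (a - a ^ 2) ^ (n + 1) = 0 := by rw [pow_succ, hn, zero_mul]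
  have hidem := isIdempotentElem_one_sub_one_sub_pow_pow a (n + 1) hn1
  -- Work in the commutative polynomial ring
  let p : Polynomial ℤ := 1 - (1 - Polynomial.X ^ (n + 1)) ^ (n + 1)
  let φ : Polynomial ℤ →+* R := (Polynomial.aeval a).toRingHom
  have hφX : φ Polynomial.X = a := by simp [φ]
  have hφp : φ p = 1 - (1 - a ^ (n + 1)) ^ (n + 1) := by simp [p, φ]
  have h1 : (Polynomial.X : Polynomial ℤ) ∣ p := by
    have : (Polynomial.X : Polynomial ℤ) ^ (n + 1) ∣ p := by
      have := sub_dvd_pow_sub_pow (1 : Polynomial ℤ) (1 - Polynomial.X ^ (n + 1)) (n + 1)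
      simpa [p] using this
    exact dvd_trans (dvd_pow_self _ (Nat.succ_ne_zero n)) this
  obtain ⟨q, hq⟩ := h1
  -- `X - X^2` divides `X - p`
  have h2 : (Polynomial.X - Polynomial.X ^ 2 : Polynomial ℤ) ∣ Polynomial.X - p := by
    have hX : (Polynomial.X : Polynomial ℤ) ∣ Polynomial.X - p := dvd_sub dvd_rfl ⟨q, hq⟩
    have hX1 : (1 - Polynomial.X : Polynomial ℤ) ∣ Polynomial.X - p := by
      have e1 : (Polynomial.X : Polynomial ℤ) - p
          = (1 - Polynomial.X ^ (n + 1)) ^ (n + 1) - (1 - Polynomial.X) := by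
        simp only [p]; ring
      rw [e1]
      refine dvd_sub ?_ dvd_rfl
      have : (1 - Polynomial.X : Polynomial ℤ) ∣ 1 - Polynomial.X ^ (n + 1) := by
        simpa using sub_dvd_pow_sub_pow (1 : Polynomial ℤ) Polynomial.X (n + 1)
      exact dvd_trans this (dvd_pow_self _ (Nat.succ_ne_zero n))
    have hcop : IsCoprime (Polynomial.X : Polynomial ℤ) (1 - Polynomial.X) := ⟨1, 1, by ring⟩
    have := hcop.mul_dvd hX hX1
    have e2 : (Polynomial.X : Polynomial ℤ) * (1 - Polynomial.X) = Polynomial.X - Polynomial.X ^ 2 := by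
      ring
    rwa [e2] at this
  obtain ⟨s, hs⟩ := h2
  refine ⟨φ p, φ q, ?_, ?_, ?_, ?_⟩
  · rw [hφp]; exact hidem
  · rw [hq, map_mul, hφX]
  · refine ⟨n + 1, ?_⟩
    have : a - φ p = φ (Polynomial.X - p) := by rw [map_sub φ Polynomial.X p, hφX]
    rw [this, ← map_pow, hs, mul_pow, map_mul, map_pow]
    have : φ (Polynomial.X - Polynomial.X ^ 2) = a - a ^ 2 := by simp [φ]
    rw [this, hn1, zero_mul]
  · have : a - φ p = φ (Polynomial.X - p) := by rw [map_sub φ Polynomial.X p, hφX]
    rw [this, ← map_mul, ← map_mul, mul_comm]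

theorem isStronglyNilClean_of_isNilpotent {a : R} (h : IsNilpotent (a - a ^ 2)) :
    IsStronglyNilClean a := by
  obtain ⟨E, r, hE, -, hn, hc⟩ := exists_idem h
  exact ⟨E, a - E, hE, hn, hc, by noncomm_ring⟩

theorem isNilpotent_sub_sq {a : R} (h : IsStronglyNilClean a) : IsNilpotent (a - a ^ 2) := by
  obtain ⟨e, b, he, hb, hc, rfl⟩ := h
  have hee : e * e = e := he
  have : e + b - (e + b) ^ 2 = b * (1 - 2 * e - b) := by
    have : (e + b) ^ 2 = e * e + e * b + b * e + b * b := by noncomm_ring
    rw [this, hee, hc]; noncomm_ring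
  rw [this]
  apply Commute.isNilpotent_mul_right _ hb
  have hbe : Commute b e := hc.symm
  refine Commute.sub_right (Commute.sub_right (Commute.one_right _) ?_) (Commute.refl _)
  exact Commute.mul_right (Commute.ofNat_right b 2) hbe

theorem isWeaklyUURing_of (h : IsStronglyWeaklyNilCleanRing R) : IsWeaklyUURing R := by
  have key : ∀ v : R, IsUnit v → IsStronglyNilClean v → ∃ n, IsNilpotent n ∧ v = n + 1 := by
    intro v hv hs
    obtain ⟨e, b, he, hb, hc, rfl⟩ := hs
    have hbe : Commute e b := hc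
    have he1 : IsUnit e := by
      have : e = (e + b) - b := by noncomm_ring
      rw [this]
      have hcomm : Commute (e + b) b := hbe.add_left (Commute.refl b)
      rw [sub_eq_add_neg]
      exact (hb.neg).isUnit_add_left_of_commute hv (hcomm.neg_right).symm
    have : e = 1 := by
      have hee : e * e = e * 1 := by rw [mul_one]; exact he
      exact he1.mul_left_cancel hee
    exact ⟨b, hb, by rw [this, add_comm]⟩
  unfold IsWeaklyUURing
  ext v
  simp only [Set.mem_ofPred_eq]
  constructor
  · intro hv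
    rcases h v with h1 | h1
    · obtain ⟨n, hn, hvn⟩ := key v hv h1
      exact ⟨n, hn, Or.inl hvn⟩
    · obtain ⟨n, hn, hvn⟩ := key (-v) hv.neg h1
      refine ⟨-n, hn.neg, Or.inr ?_⟩
      rw [← neg_neg v, hvn]; noncomm_ring
  · rintro ⟨n, hn, rfl | rfl⟩
    · exact hn.isUnit_add_one
    · exact hn.isUnit_sub_one

theorem isSemiPotentRing_of (h : IsStronglyWeaklyNilCleanRing R) : IsSemiPotentRing R := by
  intro I hI
  by_contra hcon
  push Not at hcon
  obtain ⟨x, hxI, hxJ⟩ := hI
  apply hxJ
  apply mem_jacobson_of_forall_isNilpotent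
  intro r
  have mem : ∀ y ∈ I, ∀ s : R, y * s ∈ I := by
    intro y hy s
    have := I.smul_mem (MulOpposite.op s) hy
    simpa using this
  have key : ∀ y ∈ I, IsStronglyNilClean y → IsNilpotent y := by
    intro y hy hs
    obtain ⟨E, s, hE, hEs, hn, -⟩ := exists_idem (isNilpotent_sub_sq hs)
    have hEI : E ∈ I := by rw [hEs]; exact mem y hy s
    have hE0 : E = 0 := by
      by_contra hne
      exact hcon E hEI hne hE
    rwa [hE0, sub_zero] at hn
  rcases h (x * r) with h1 | h1
  · exact key _ (mem x hxI r) h1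
  · have := key _ (I.neg_mem (mem x hxI r)) h1
    simpa using this.neg

/-- Core argument in a ring in which every nonzero principal right ideal contains a nonzero
idempotent and all units are `n ± 1` with `n` nilpotent: the ring is reduced. -/
theorem isReduced_of (hP : ∀ x : R, x ≠ 0 → ∃ r, x * r ≠ 0 ∧ IsIdempotentElem (x * r))
    (hU : ∀ v : R, IsUnit v → ∃ n : R, IsNilpotent n ∧ (v = n + 1 ∨ v = n - 1)) :
    IsReduced R := by
  have main : ∀ a : R, a * a = 0 → a = 0 := by
    intro a haa
    by_contra ha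
    obtain ⟨r, hr0, hr⟩ := hP a ha
    set e := a * r with he
    have hee : e * e = e := hr
    set s := r * e with hs
    have has : a * s = e := by rw [hs, ← mul_assoc, ← he, hee]
    have hse : s * e = s := by rw [hs, mul_assoc, hee]
    set x := e * a with hx
    set y := (1 - e) * s with hy
    have hex : e * x = x := by rw [hx, ← mul_assoc, hee]
    have hxe : x * e = 0 := by rw [hx, ← has, mul_assoc, ← mul_assoc a a s, haa]; simp
    have hxs : x * s = e := by rw [hx, mul_assoc, has, hee]
    have hxy : x * y = e := by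
      rw [hy, sub_mul, one_mul, mul_sub, ← mul_assoc x e s, hxe, zero_mul, sub_zero, hxs]
    have hey : e * y = 0 := by
      rw [hy, ← mul_assoc, mul_sub, mul_one, hee, sub_self, zero_mul]
    have hye : y * e = y := by rw [hy, mul_assoc, hse]
    set g := y * x with hg
    have hgg : g * g = g := by
      rw [hg, mul_assoc, ← mul_assoc x y x, hxy, hex]
    have heg : e * g = 0 := by rw [hg, ← mul_assoc, hey, zero_mul]
    have hge : g * e = 0 := by rw [hg, mul_assoc, hxe, mul_zero]
    have hxx : x * x = 0 := by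
      rw [← hex, mul_assoc e x, ← mul_assoc x e x, hxe]; simp
    have hyy : y * y = 0 := by
      rw [← hye, mul_assoc y e, ← mul_assoc e y e, hey]; simp
    have hxg : x * g = x := by rw [hg, ← mul_assoc, hxy, hex]
    have hgx : g * x = 0 := by rw [hg, mul_assoc, hxx, mul_zero]
    have hgy : g * y = y := by rw [hg, mul_assoc, hxy, hye]
    have hyg : y * g = 0 := by rw [hg, ← mul_assoc, hyy, zero_mul]
    -- the unit `e + x + y + (1 - e - g)` with inverse `x + y - g + (1 - e - g)`
    have h1 : (1 + x + y - g) * (1 - e - 2 * g + x + y) = 1 := by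
      have : (1 + x + y - g) * (1 - e - 2 * g + x + y)
        = 1 - e - 2 * g + x + y + (x - x * e - 2 * (x * g) + x * x + x * y)
          + (y - y * e - 2 * (y * g) + y * x + y * y)
          - (g - g * e - 2 * (g * g) + g * x + g * y) := by noncomm_ring
      rw [this, hxe, hxg, hxx, hxy, hye, hyg, ← hg, hyy, hge, hgg, hgx, hgy]
      noncomm_ring
    have h2 : (1 - e - 2 * g + x + y) * (1 + x + y - g) = 1 := by
      have : (1 - e - 2 * g + x + y) * (1 + x + y - g)
        = 1 + x + y - g - (e + e * x + e * y - e * g) - 2 * (g + g * x + g * y - g * g)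
          + (x + x * x + x * y - x * g) + (y + y * x + y * y - y * g) := by noncomm_ring
      rw [this, hex, hey, heg, hgx, hgy, hgg, hxx, hxy, hxg, ← hg, hyy, hyg]
      noncomm_ring
    have hunit : IsUnit (1 + x + y - g) := ⟨⟨_, _, h1, h2⟩, rfl⟩
    have he0 : e ≠ 0 := hr0
    obtain ⟨n, ⟨k, hk⟩, hn | hn⟩ := hU _ hunit
    · -- `n = x + y - g`; multiply powers against `e`
      have hn' : n = x + y - g := by
        have : n = (n + 1) - 1 := by noncomm_ring
        rw [this, ← hn]; noncomm_ring
      -- `(e + x + y) * n = e + g` and it commutes; so `n^k = 0` implies `e + g` to be zero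
      have hcn : (e + x + y) * n = e + g := by
        have : (e + x + y) * (x + y - g)
          = (e * x + e * y - e * g) + (x * x + x * y - x * g) + (y * x + y * y - y * g) := by
          noncomm_ring
        rw [hn', this, hex, hey, heg, hxx, hxy, hxg, ← hg, hyy, hyg]; noncomm_ring
      have hidn : (e + g) * n = n := by
        have : (e + g) * (x + y - g) = (e * x + e * y - e * g) + (g * x + g * y - g * g) := by
          noncomm_ring
        rw [hn', this, hex, hey, heg, hgx, hgy, hgg]; noncomm_ring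
      have hpow : ∀ m : ℕ, n ^ m = 0 → e + g = 0 := by
        intro m
        induction m with
        | zero => intro h0; rw [pow_zero] at h0; rw [← mul_one (e + g), h0, mul_zero]
        | succ m ih =>
          intro h0
          rcases m with _ | m
          · rw [zero_add, pow_one] at h0
            rw [← hcn, h0, mul_zero]
          · apply ih
            have : (e + x + y) * n ^ (m + 1 + 1) = n ^ (m + 1) := by
              rw [pow_succ' n (m + 1), ← mul_assoc, hcn, pow_succ' n m, ← mul_assoc, hidn]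
            rw [← this, h0, mul_zero]
      have := hpow k hk
      apply he0
      calc e = e * (e + g) := by rw [mul_add, hee, heg, add_zero]
        _ = 0 := by rw [this, mul_zero]
    · have hn' : n = 2 + x + y - g := by
        have h5 : n = (n - 1) + 1 := by noncomm_ring
        have h6 : (2 : R) = 1 + 1 := by norm_num
        rw [h5, ← hn, h6]; noncomm_ring
      -- left inverse on the corner: `(e - x - y + 2 g) * n = e + g`
      have hcn : (e - x - y + 2 * g) * n = e + g := by
        have : (e - x - y + 2 * g) * (2 + x + y - g)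
          = (2 * e + e * x + e * y - e * g) - (2 * x + x * x + x * y - x * g)
            - (2 * y + y * x + y * y - y * g) + 2 * (2 * g + g * x + g * y - g * g) := by
          noncomm_ring
        rw [hn', this, hex, hey, heg, hxx, hxy, hxg, ← hg, hyy, hyg, hgx, hgy, hgg]
        noncomm_ring
      have hidn : (e + g) * n = n * (e + g) := by
        have h3 : (e + g) * (2 + x + y - g)
          = (2 * e + e * x + e * y - e * g) + (2 * g + g * x + g * y - g * g) := by
          noncomm_ring
        have h4 : (2 + x + y - g) * (e + g)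
          = (2 * e + x * e + y * e - g * e) + (2 * g + x * g + y * g - g * g) := by
          noncomm_ring
        rw [hn', h3, h4, hex, hey, heg, hgx, hgy, hgg, hxe, hye, hge, hxg, hyg]
        noncomm_ring
      have hcorner : (e - x - y + 2 * g) * (e + g) = (e - x - y + 2 * g) := by
        have : (e - x - y + 2 * g) * (e + g)
          = (e * e + e * g) - (x * e + x * g) - (y * e + y * g) + 2 * (g * e + g * g) := by
          noncomm_ring
        rw [this, hee, heg, hxe, hxg, hye, hyg, hge, hgg]; noncomm_ring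
      have hpow : ∀ m : ℕ, (e + g) * n ^ m = 0 → e + g = 0 := by
        intro m
        induction m with
        | zero => intro h0; rwa [pow_zero, mul_one] at h0
        | succ m ih =>
          intro h0
          apply ih
          have : (e - x - y + 2 * g) * ((e + g) * n ^ (m + 1)) = (e + g) * n ^ m := by
            rw [← mul_assoc, hcorner, pow_succ', ← mul_assoc, hcn]
          rw [← this, h0, mul_zero]
      have := hpow k (by rw [hk, mul_zero])
      apply he0
      calc e = e * (e + g) := by rw [mul_add, hee, heg, add_zero]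
        _ = 0 := by rw [this, mul_zero]
  constructor
  intro a ⟨k, hk⟩
  by_contra ha
  -- take the smallest power
  have hex : ∃ m, a ^ m = 0 := ⟨k, hk⟩
  classical
  obtain ⟨m, hm, hmin⟩ : ∃ m, a ^ m = 0 ∧ ∀ j < m, a ^ j ≠ 0 :=
    ⟨Nat.find hex, Nat.find_spec hex, fun j hj => Nat.find_min hex hj⟩
  rcases m with _ | _ | m
  · rw [pow_zero] at hm
    apply ha
    rw [← mul_one a, hm, mul_zero]
  · rw [zero_add, pow_one] at hm
    exact ha hm
  · have : a ^ (m + 1) = 0 := by
      apply main
      rw [← pow_add]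
      have : m + 1 + (m + 1) = (m + 1 + 1) + m := by ring
      rw [this, pow_add, hm, zero_mul]
    exact hmin (m + 1) (by omega) this

end General

section Reduced

variable {S : Type u} [Ring S]

theorem idem_central [IsReduced S] {e : S} (he : IsIdempotentElem e) (y : S) : e * y = y * e := by
  have hee : e * e = e := he
  have h1 : e * y * (1 - e) = 0 := by
    have : (e * y * (1 - e)) ^ 2 = 0 := by
      have : (e * y * (1 - e)) ^ 2 = e * y * ((1 - e) * e) * y * (1 - e) := by
        noncomm_ring
      rw [this, sub_mul, one_mul, hee, sub_self]; simp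
    exact pow_eq_zero_iff (two_ne_zero) |>.mp this
  have h2 : (1 - e) * y * e = 0 := by
    have : ((1 - e) * y * e) ^ 2 = 0 := by
      have : ((1 - e) * y * e) ^ 2 = (1 - e) * y * (e * (1 - e)) * y * e := by
        noncomm_ring
      rw [this, mul_sub, mul_one, hee, sub_self]; simp
    exact pow_eq_zero_iff (two_ne_zero) |>.mp this
  have h3 : e * y = e * y * e := by
    have : e * y * (1 - e) = e * y - e * y * e := by noncomm_ring
    rw [this] at h1; exact sub_eq_zero.mp h1
  have h4 : y * e = e * y * e := by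
    have : (1 - e) * y * e = y * e - e * y * e := by noncomm_ring
    rw [this] at h2; exact sub_eq_zero.mp h2
  rw [h3, h4]

theorem unit_of_right_inv [IsReduced S] {a b : S} (h : a * b = 1) : IsUnit a := by
  have hi : IsIdempotentElem (b * a) := by
    change b * a * (b * a) = b * a
    calc b * a * (b * a) = b * (a * b) * a := by noncomm_ring
      _ = b * a := by rw [h, mul_one]
  have : b * a = 1 := by
    calc b * a = b * a * (a * b) := by rw [h, mul_one]
      _ = (b * a) * a * b := by noncomm_ring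
      _ = a * (b * a) * b := by rw [idem_central hi a]
      _ = (a * b) * (a * b) := by noncomm_ring
      _ = 1 := by rw [h, mul_one]
  exact ⟨⟨a, b, h, this⟩, rfl⟩

theorem cube_eq [IsReduced S] (hP : ∀ x : S, x ≠ 0 → ∃ r, x * r ≠ 0 ∧ IsIdempotentElem (x * r))
    (hU : ∀ v : S, IsUnit v → v = 1 ∨ v = -1) (x : S) : x ^ 3 = x := by
  by_contra hx
  have hx0 : x ^ 3 - x ≠ 0 := sub_ne_zero.mpr hx
  obtain ⟨r, hr0, hr⟩ := hP _ hx0
  set e := (x ^ 3 - x) * r with he
  have hee : e * e = e := hr
  have hc := idem_central hr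
  have hxu : (e * x + (1 - e)) * ((x ^ 2 - 1) * r * e + (1 - e)) = 1 := by
    have h1 : (e * x + (1 - e)) * ((x ^ 2 - 1) * r * e + (1 - e))
      = e * (x * ((x ^ 2 - 1) * r)) * e + (e * x - (e * x) * e) + ((x ^ 2 - 1) * r * e
        - e * ((x ^ 2 - 1) * r) * e) + (1 - e - e + e * e) := by noncomm_ring
    have h2 : x * ((x ^ 2 - 1) * r) = e := by rw [he]; noncomm_ring
    rw [h1, h2, hc x, mul_assoc x e e, hee, hee, hc ((x ^ 2 - 1) * r),
      mul_assoc _ e e, hee]
    noncomm_ring
  have hu := unit_of_right_inv hxu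
  have hexe : e * x = e ∨ e * x = -e := by
    rcases hU _ hu with h | h
    · left
      calc e * x = e * (e * x + (1 - e)) := by
            rw [mul_add, ← mul_assoc, hee, mul_sub, hee, mul_one, sub_self, add_zero]
        _ = e := by rw [h, mul_one]
    · right
      calc e * x = e * (e * x + (1 - e)) := by
            rw [mul_add, ← mul_assoc, hee, mul_sub, hee, mul_one, sub_self, add_zero]
        _ = -e := by rw [h, mul_neg, mul_one]
  have h0 : e * (x ^ 3 - x) = 0 := by
    rcases hexe with h | h
    · have : e * x ^ 3 = e := by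
        rw [pow_succ, pow_two, ← mul_assoc, ← mul_assoc, h, h, h]
      rw [mul_sub, this, h, sub_self]
    · have : e * x ^ 3 = -e := by
        rw [pow_succ, pow_two, ← mul_assoc, ← mul_assoc, h, neg_mul, h, neg_neg, h]
      rw [mul_sub, this, h, sub_self]
  apply hr0
  have h7 : e * e = e * (x ^ 3 - x) * r := by
    rw [mul_assoc e (x ^ 3 - x) r]
  rw [← hee, h7, h0, zero_mul]

theorem sq_eq_or [IsReduced S] (hcube : ∀ x : S, x ^ 3 = x)
    (hU : ∀ v : S, IsUnit v → v = 1 ∨ v = -1) (x : S) : x - x ^ 2 = 0 ∨ x + x ^ 2 = 0 := by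
  have h6 : (6 : S) = 0 := by
    have := hcube 2
    have h8 : (2 : S) ^ 3 = 8 := by norm_num
    rw [h8] at this
    have h : (6 : S) = 8 - 2 := by norm_num
    rw [h, this, sub_self]
  have h3 : ∀ y : S, 3 * y ^ 2 + 3 * y = 0 := by
    intro y
    have h1 := hcube (y + 1)
    have h2 : (y + 1) ^ 3 = y ^ 3 + (3 * y ^ 2 + 3 * y) + 1 := by noncomm_ring
    rw [h2, hcube y] at h1
    have h3 : y + (3 * y ^ 2 + 3 * y) + 1 - (y + 1) = 0 := by rw [h1, sub_self]
    rw [← h3]; noncomm_ring
  have h6x : ∀ y : S, 6 * y = 0 := fun y => by rw [h6, zero_mul]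
  have hx3 := hcube x
  have hx2i : x ^ 2 * x ^ 2 = x ^ 2 := by
    calc x ^ 2 * x ^ 2 = x ^ 3 * x := by rw [← pow_add, pow_succ x 3]
      _ = x ^ 2 := by rw [hx3, pow_two]
  have hu : IsUnit (1 - 2 * x ^ 2) := by
    have : (1 - 2 * x ^ 2) * (1 - 2 * x ^ 2) = 1 := by
      have : (1 - 2 * x ^ 2) * (1 - 2 * x ^ 2) = 1 - 4 * x ^ 2 + 4 * (x ^ 2 * x ^ 2) := by
        noncomm_ring
      rw [this, hx2i]; noncomm_ring
    exact ⟨⟨_, _, this, this⟩, rfl⟩
  have h3x := h3 x
  rcases hU _ hu with h | h
  · -- 2 x^2 = 0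
    have h2 : 2 * x ^ 2 = 0 := by
      have : 2 * x ^ 2 = 1 - (1 - 2 * x ^ 2) := by noncomm_ring
      rw [this, h, sub_self]
    have h2x : 2 * x = 0 := by
      calc 2 * x = 2 * x ^ 3 := by rw [hx3]
        _ = (2 * x ^ 2) * x := by noncomm_ring
        _ = 0 := by rw [h2, zero_mul]
    left
    have e1 : x - x ^ 2 = (6 * x) - (3 * x ^ 2 + 3 * x) + (2 * x ^ 2) - (2 * x) := by noncomm_ring
    rw [e1, h6x, h3x, h2, h2x]; simp
  · -- 2 x^2 = 2
    have h2 : 2 * x ^ 2 = 2 := by
      have : 2 * x ^ 2 = 1 - (1 - 2 * x ^ 2) := by noncomm_ring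
      rw [this, h]; norm_num
    have h4 : 4 * x ^ 2 = 4 := by
      have : 4 * x ^ 2 = 2 * (2 * x ^ 2) := by noncomm_ring
      rw [this, h2]; norm_num
    have hu2 : IsUnit (4 * x + 3) := by
      have : (4 * x + 3) * (4 * x + 3) = 1 := by
        have e1 : (4 * x + 3) * (4 * x + 3) = 4 * (4 * x ^ 2) + 4 * (6 * x) + 9 * 1 := by
          have h9 : (3 : S) = 3 * 1 := by rw [mul_one]
          rw [h9]; noncomm_ring
        rw [e1, h4, h6x]
        have : (4 * 4 + 4 * 0 + 9 * 1 : S) = 4 * 6 + 1 := by norm_num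
        rw [this, h6]; simp
      exact ⟨⟨_, _, this, this⟩, rfl⟩
    rcases hU _ hu2 with h' | h'
    · left
      -- 4 x = -2, x = 3x + 4
      have e2 : 2 * x = 2 := by
        have : 2 * x = 6 * x - (4 * x + 3) + 3 := by noncomm_ring
        rw [this, h6x, h']; norm_num
      have e1 : x - x ^ 2 = 2 * (2 * x) + 2 * x ^ 2 - (3 * x ^ 2 + 3 * x) := by noncomm_ring
      rw [e1, h3x, h2, e2]
      have : (2 * 2 + 2 - 0 : S) = 6 := by norm_num
      rw [this, h6]
    · right
      have e2 : 2 * x = 4 := by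
        have : 2 * x = 6 * x - (4 * x + 3) + 3 := by noncomm_ring
        rw [this, h6x, h']; norm_num
      have e1 : x + x ^ 2 = (3 * x ^ 2 + 3 * x) - 2 * x ^ 2 - 2 * x := by noncomm_ring
      rw [e1, h3x, h2, e2]
      have : (0 - 2 - 4 : S) = - 6 := by norm_num
      rw [this, h6, neg_zero]

end Reduced

section Main

variable {R : Type u} [Ring R]

/-- Units lift along the quotient by the Jacobson radical. -/
theorem isUnit_of_mk {a : R} (h : IsUnit (Ideal.Quotient.mk (Ring.jacobson R) a)) : IsUnit a := by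
  obtain ⟨⟨p, q, hpq, hqp⟩, hp⟩ := h
  simp only at hp
  subst hp
  obtain ⟨b, rfl⟩ := Ideal.Quotient.mk_surjective q
  have h1 : IsUnit (a * b) := by
    have hm : a * b - 1 ∈ Ring.jacobson R := by
      rw [← Ideal.Quotient.eq_zero_iff_mem, map_sub, map_mul, hpq, map_one, sub_self]
    have := isUnit_one_add_of_mem_jacobson hm
    simpa using this
  have h2 : IsUnit (b * a) := by
    have hm : b * a - 1 ∈ Ring.jacobson R := by
      rw [← Ideal.Quotient.eq_zero_iff_mem, map_sub, map_mul, hqp, map_one, sub_self]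
    have := isUnit_one_add_of_mem_jacobson hm
    simpa using this
  obtain ⟨c, hc⟩ := h1.exists_right_inv
  obtain ⟨d, hd⟩ := h2.exists_left_inv
  have hr : a * (b * c) = 1 := by rw [← mul_assoc, hc]
  have hl : (d * b) * a = 1 := by rw [mul_assoc, hd]
  have : d * b = b * c := by
    calc d * b = (d * b) * (a * (b * c)) := by rw [hr, mul_one]
      _ = ((d * b) * a) * (b * c) := by rw [mul_assoc (d * b) a]
      _ = b * c := by rw [hl, one_mul]
  rw [this] at hl
  exact ⟨⟨a, b * c, hr, hl⟩, rfl⟩

theorem jacobson_nil (hU : IsWeaklyUURing R) {j : R} (hj : j ∈ Ring.jacobson R) :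
    IsNilpotent j := by
  have hU' : ∀ v : R, IsUnit v → ∃ n : R, IsNilpotent n ∧ (v = n + 1 ∨ v = n - 1) := by
    intro v hv
    have : v ∈ {v : R | IsUnit v} := hv
    rw [hU] at this
    exact this
  obtain ⟨n, hn, h | h⟩ := hU' _ (isUnit_one_add_of_mem_jacobson hj)
  · have : j = n := by
      have h5 : j = (1 + j) - 1 := by abel
      rw [h5, h]; abel
    rwa [this]
  · -- `n = 2 + j`
    have hn2 : n = 2 + j := by
      have h5 : n = (n - 1) + 1 := by abel
      have h6 : (2 : R) = 1 + 1 := by norm_num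
      rw [h5, ← h, h6]; abel
    obtain ⟨k, hk⟩ := hn
    have h2k : (2 : R) ^ k ∈ Ring.jacobson R := by
      rw [← Ideal.Quotient.eq_zero_iff_mem]
      have h7 : Ideal.Quotient.mk (Ring.jacobson R) j = 0 := by
        rw [Ideal.Quotient.eq_zero_iff_mem]; exact hj
      have h8 : Ideal.Quotient.mk (Ring.jacobson R) (n ^ k) = 0 := by rw [hk, map_zero]
      rw [hn2, map_pow, map_add, h7, add_zero, ← map_pow] at h8
      exact h8
    have h3u : IsUnit (3 : R) := by
      have hm : -((-2 : R) ^ k) ∈ Ring.jacobson R := by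
        apply neg_mem
        rw [neg_pow]
        exact Ideal.mul_mem_left _ _ h2k
      have hu := isUnit_one_add_of_mem_jacobson hm
      have hd : (1 : ℤ) - (-2) ∣ 1 ^ k - (-2) ^ k := sub_dvd_pow_sub_pow 1 (-2) k
      obtain ⟨c, hc⟩ := hd
      have hc' : (1 : R) + -((-2) ^ k) = 3 * (c : R) := by
        have := congrArg (Int.cast : ℤ → R) hc
        push_cast at this
        rw [one_pow] at this
        rw [← sub_eq_add_neg, this]
      rw [hc'] at hu
      obtain ⟨d, hd⟩ := hu.exists_right_inv
      have hcomm : Commute (3 : R) ((c : R) * d) := Commute.ofNat_left 3 _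
      have h10 : (3 : R) * ((c : R) * d) = 1 := by rw [← mul_assoc, hd]
      exact ⟨⟨3, (c : R) * d, h10, by rw [← hcomm.eq, h10]⟩, rfl⟩
    have h2nil : IsNilpotent (2 : R) := by
      obtain ⟨m, hm, h' | h'⟩ := hU' _ h3u
      · have : (2 : R) = m := by
          have h11 : (2 : R) = 3 - 1 := by norm_num
          rw [h11, h']; abel
        rwa [this]
      · have : (2 : R) ^ 2 = m := by
          have h11 : (2 : R) ^ 2 = 3 + 1 := by norm_num
          rw [h11, h']; abel
        obtain ⟨t, ht⟩ := hm
        refine ⟨2 * t, ?_⟩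
        rw [pow_mul, this, ht]
    have hjj : j = n - 2 := by rw [hn2]; abel
    rw [hjj]
    exact (Commute.ofNat_right n 2).isNilpotent_sub ⟨k, hk⟩ h2nil

theorem isStronglyWeaklyNilCleanRing_of (hS : IsSemiPotentRing R) (hU : IsWeaklyUURing R) :
    IsStronglyWeaklyNilCleanRing R := by
  have hU' : ∀ v : R, IsUnit v → ∃ n : R, IsNilpotent n ∧ (v = n + 1 ∨ v = n - 1) := by
    intro v hv
    have : v ∈ {v : R | IsUnit v} := hv
    rw [hU] at this
    exact this
  set J := Ring.jacobson R with hJ
  let π := Ideal.Quotient.mk J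
  have hP : ∀ x : R ⧸ J, x ≠ 0 → ∃ r, x * r ≠ 0 ∧ IsIdempotentElem (x * r) := by
    intro x hx
    obtain ⟨a, rfl⟩ := Ideal.Quotient.mk_surjective x
    have ha : a ∉ J := by
      intro h; exact hx (Ideal.Quotient.eq_zero_iff_mem.mpr h)
    obtain ⟨e, heI, he0, hee⟩ := hS (Submodule.span Rᵐᵒᵖ {a})
      ⟨a, Submodule.mem_span_singleton_self a, ha⟩
    rw [Submodule.mem_span_singleton] at heI
    obtain ⟨r, hr⟩ := heI
    have hr' : a * r.unop = e := by rw [← hr]; simp [MulOpposite.smul_eq_mul_unop]
    refine ⟨π r.unop, ?_, ?_⟩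
    · rw [← map_mul, hr']
      intro h0
      have heJ : e ∈ Ring.jacobson R := Ideal.Quotient.eq_zero_iff_mem.mp h0
      have hu : IsUnit (1 + -e) := isUnit_one_add_of_mem_jacobson (neg_mem heJ)
      apply he0
      have h13 : (1 + -e) * e = (1 + -e) * 0 := by
        have : (1 + -e) * e = e - e * e := by noncomm_ring
        rw [this, hee.eq, sub_self, mul_zero]
      exact hu.mul_left_cancel h13
    · rw [← map_mul, hr']; exact hee.map π
  have hUq : ∀ v : R ⧸ J, IsUnit v → ∃ n : R ⧸ J, IsNilpotent n ∧ (v = n + 1 ∨ v = n - 1) := by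
    intro v hv
    obtain ⟨a, rfl⟩ := Ideal.Quotient.mk_surjective v
    obtain ⟨n, hn, h | h⟩ := hU' a (isUnit_of_mk hv)
    · exact ⟨π n, hn.map π, Or.inl (by rw [h, map_add, map_one])⟩
    · exact ⟨π n, hn.map π, Or.inr (by rw [h, map_sub, map_one])⟩
  have : IsReduced (R ⧸ J) := isReduced_of hP hUq
  have hUr : ∀ v : R ⧸ J, IsUnit v → v = 1 ∨ v = -1 := by
    intro v hv
    obtain ⟨n, hn, h⟩ := hUq v hv
    have : n = 0 := hn.eq_zero
    rw [this, zero_add, zero_sub] at h
    exact h
  have hcube := cube_eq hP hUr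
  intro a
  rcases sq_eq_or hcube hUr (π a) with h | h
  · left
    apply isStronglyNilClean_of_isNilpotent
    apply jacobson_nil hU
    rw [← hJ, ← Ideal.Quotient.eq_zero_iff_mem, map_sub, map_pow]
    exact h
  · right
    apply isStronglyNilClean_of_isNilpotent
    apply jacobson_nil hU
    rw [← hJ, ← Ideal.Quotient.eq_zero_iff_mem, map_sub, map_pow, map_neg]
    have : -(Ideal.Quotient.mk J) a - (-(Ideal.Quotient.mk J) a) ^ 2 = -(π a + π a ^ 2) := by
      change -(π a) - (-(π a)) ^ 2 = -(π a + π a ^ 2)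
      rw [neg_sq]; abel
    rw [this, h, neg_zero]

end Main

/-- A ring is strongly weakly nil-clean if and only if it is semi-potent and WUU. -/
theorem result (R : Type u) [Ring R] :
    IsStronglyWeaklyNilCleanRing R ↔ IsSemiPotentRing R ∧ IsWeaklyUURing R :=
  ⟨fun h => ⟨isSemiPotentRing_of h, isWeaklyUURing_of h⟩,
    fun h => isStronglyWeaklyNilCleanRing_of h.1 h.2⟩

end Pool.Agent.Results.MP_2093e0_al.SemiPotentWUU
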